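import Mathlib

/-! Part of `S_L` (MP_33144e_an, project of helper624): a pressing down lemma. -/

set_option autoImplicit false

open Set Cardinal

namespace Pool.Agent.H253.WS

theorem bdd {κ : Cardinal.{0}} (hκ : κ.IsRegular) (s : Set κ.ord.ToType)
    (hs : Cardinal.mk s < κ) : ∃ b, ∀ a ∈ s, a < b := by
  by_contra h
  push Not at h
  have h1 : IsCofinal s := fun b => by
    obtain ⟨a, ha, hab⟩ := h b
    exact ⟨a, ha, hab⟩
  have h2 := Order.cof_le h1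
  rw [Ordinal.cof_toType, hκ.cof_ord] at h2
  exact absurd hs (not_lt.2 h2)

/-- the points of uncountable cofinality -/
def Good {A : Type} [LinearOrder A] (a : A) : Prop :=
  ∀ s : Set A, s.Countable → (∀ c ∈ s, c < a) → ∃ b, b < a ∧ ∀ c ∈ s, c < b

theorem press {κ : Cardinal.{0}} (hκ : κ.IsRegular) (h1 : aleph 1 < κ)
    (r : κ.ord.ToType → κ.ord.ToType) (hr : ∀ a, Good a → r a < a) :
    ∃ β, ∀ b, ∃ a, b < a ∧ Good a ∧ r a ≤ β := by
  classical
  by_contra hcon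
  push Not at hcon
  choose c hc using hcon
  have hκ0 : ℵ₀ < κ := (aleph0_lt_aleph_one).trans h1
  have : ∃ bd : Set κ.ord.ToType → κ.ord.ToType, ∀ s : Set κ.ord.ToType,
      Cardinal.mk s < κ → ∀ a ∈ s, a < bd s := by
    refine ⟨fun s => if h : Cardinal.mk s < κ then (bdd hκ s h).choose else
      (bdd hκ ∅ (by simpa using hκ.pos)).choose, fun s hs => ?_⟩
    simp only [hs, dite_true]
    exact (bdd hκ s hs).choose_spec
  obtain ⟨bd, hbd⟩ := this
  have hW : (aleph.{0} 1).IsRegular := isRegular_aleph_one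
  let W := (aleph.{0} 1).ord.ToType
  let α : W → κ.ord.ToType := (wellFounded_lt (α := W)).fix fun ξ ih =>
    bd (range (fun η : Iio ξ => ih η.1 η.2) ∪ range (fun η : Iio ξ => c (ih η.1 η.2)))
  have hα : ∀ ξ, α ξ = bd (range (fun η : Iio ξ => α η.1) ∪ range (fun η : Iio ξ => c (α η.1))) :=
    fun ξ => (wellFounded_lt (α := W)).fix_eq _ ξ
  have hIio : ∀ ξ : W, Cardinal.mk (Iio ξ) < aleph 1 := fun ξ => mk_Iio_toType_ord_lt ξ
  have hcard : ∀ ξ, Cardinal.mk (range (fun η : Iio ξ => α η.1) ∪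
      range (fun η : Iio ξ => c (α η.1)) : Set κ.ord.ToType) < κ := by
    intro ξ
    refine (mk_union_le _ _).trans_lt (add_lt_of_lt hκ.aleph0_le ?_ ?_)
    · exact mk_range_le.trans_lt ((hIio ξ).trans h1)
    · exact mk_range_le.trans_lt ((hIio ξ).trans h1)
  have hm1 : ∀ η ξ, η < ξ → α η < α ξ := by
    intro η ξ h
    rw [hα ξ]
    exact hbd _ (hcard ξ) _ (Or.inl ⟨⟨η, h⟩, rfl⟩)
  have hm2 : ∀ η ξ, η < ξ → c (α η) < α ξ := by
    intro η ξ h
    rw [hα ξ]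
    exact hbd _ (hcard ξ) _ (Or.inr ⟨⟨η, h⟩, rfl⟩)
  have hne : {b : κ.ord.ToType | ∀ ξ, α ξ < b}.Nonempty := by
    obtain ⟨b, hb⟩ := bdd hκ (range α) (mk_range_le.trans_lt (by
      have : Cardinal.mk W = aleph 1 := mk_ord_toType _
      rw [this]
      exact h1))
    exact ⟨b, fun ξ => hb _ ⟨ξ, rfl⟩⟩
  obtain ⟨a, ha⟩ : ∃ a, a = (wellFounded_lt (α := κ.ord.ToType)).min _ hne := ⟨_, rfl⟩
  have ha1 : ∀ ξ, α ξ < a := by
    rw [ha]
    exact (wellFounded_lt (α := κ.ord.ToType)).min_mem _ hne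
  have ha2 : ∀ b, b < a → ∃ ξ, b ≤ α ξ := by
    intro b hb
    by_contra hcon
    push Not at hcon
    rw [ha] at hb
    exact (wellFounded_lt (α := κ.ord.ToType)).not_lt_min {b | ∀ ξ, α ξ < b} (x := b) hcon hb
  have hgood : Good a := by
    intro s hs hsa
    have hWne : Nonempty W := ⟨(bdd hW ∅ (by simp)).choose⟩
    choose! ξ hξ using ha2
    obtain ⟨ζ, hζ⟩ := bdd hW (ξ '' s) (lt_of_le_of_lt (mk_image_le) (lt_of_le_of_lt
      (Cardinal.le_aleph0_iff_set_countable.2 hs) aleph0_lt_aleph_one))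
    refine ⟨α ζ, ha1 ζ, fun x hx => (hξ x (hsa x hx)).trans_lt (hm1 _ _ (hζ _ ⟨x, hx, rfl⟩))⟩
  obtain ⟨ξ, hξ⟩ := ha2 _ (hr a hgood)
  obtain ⟨ζ, hζ⟩ := bdd hW {ξ} (by simp)
  have h3 := hm2 ξ ζ (hζ ξ rfl)
  have h4 := ha1 ζ
  exact absurd hξ (not_le.2 (hc (α ξ) a (h3.trans h4) hgood))

end Pool.Agent.H253.WS
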