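import Pool.Agent.H253.WS.Meas

/-! Part of `S_L` (MP_33144e_an, project of helper624): Riesz products. -/

set_option autoImplicit false

open Set MeasureTheory Filter Topology

namespace Pool.Agent.H253.WS

section Riesz

variable {Ω I : Type} [LinearOrder I] {m0 : MeasurableSpace Ω} (ν : Measure Ω) [IsFiniteMeasure ν]

theorem BM.smul {m : MeasurableSpace Ω} {w : Ω → ℝ} (c : ℝ) (h : BM m w) :
    BM m (fun ω => c * w ω) := (BM.const c).mul h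

theorem remove (𝒢 : I → MeasurableSpace Ω) (h𝒢 : ∀ i, 𝒢 i ≤ m0) (ρ : I → Ω → ℝ)
    (hρ : ∀ i j, i < j → BM (𝒢 j) (ρ i)) (hρm : ∀ i, BM m0 (ρ i))
    (h0 : ∀ i w, BM (𝒢 i) w → ∫ ω, w ω * ρ i ω ∂ν = 0)
    (s : I → ℝ) (J : Finset I) (u : Ω → ℝ) (hu0 : BM m0 u) (hu : ∀ i ∈ J, BM (𝒢 i) u) :
    ∫ ω, u ω * ∏ i ∈ J, (1 + s i * ρ i ω) ∂ν = ∫ ω, u ω ∂ν := by
  induction J using Finset.induction_on_max with
  | empty => simp
  | insert a J ha ih =>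
    have haJ : a ∉ J := fun h => lt_irrefl _ (ha a h)
    have hP : BM (𝒢 a) (fun ω => ∏ i ∈ J, (1 + s i * ρ i ω)) :=
      BM.prod J fun i hi => (BM.const 1).add ((hρ i a (ha i hi)).smul _)
    have huP := (hu a (Finset.mem_insert_self _ _)).mul hP
    have hP0 := hP.mono (h𝒢 a)
    have h1 : ∀ ω, u ω * ∏ i ∈ insert a J, (1 + s i * ρ i ω) =
        u ω * ∏ i ∈ J, (1 + s i * ρ i ω) + s a * ((u ω * ∏ i ∈ J, (1 + s i * ρ i ω)) * ρ a ω) := by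
      intro ω
      rw [Finset.prod_insert haJ]
      ring
    simp_rw [h1]
    rw [integral_add ((hu0.mul hP0).int le_rfl)
      ((((hu0.mul hP0).mul (hρm a)).smul (s a)).int le_rfl), integral_const_mul, h0 a _ huP,
      mul_zero, add_zero]
    exact ih fun i hi => hu i (Finset.mem_insert_of_mem hi)

theorem val (𝒢 : I → MeasurableSpace Ω) (h𝒢 : ∀ i, 𝒢 i ≤ m0) (ρ : I → Ω → ℝ)
    (hρ : ∀ i j, i < j → BM (𝒢 j) (ρ i)) (hρm : ∀ i, BM m0 (ρ i))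
    (h0 : ∀ i w, BM (𝒢 i) w → ∫ ω, w ω * ρ i ω ∂ν = 0) (v : I → Ω → ℝ)
    (hv : ∀ i j, BM (𝒢 j) (v i)) (hvm : ∀ i, BM m0 (v i))
    (h2 : ∀ i w, BM (𝒢 i) w → ∫ ω, w ω * (ρ i ω) ^ 2 ∂ν = ∫ ω, w ω * v i ω ∂ν)
    (s : I → ℝ) (J : Finset I) (a : I) (ha : a ∈ J) :
    ∫ ω, (∏ i ∈ J, (1 + s i * ρ i ω)) * ρ a ω ∂ν = s a * ∫ ω, v a ω ∂ν := by
  obtain ⟨J1, hJ1⟩ : ∃ J1, J1 = J.filter (· < a) := ⟨_, rfl⟩
  obtain ⟨J2, hJ2⟩ : ∃ J2, J2 = J.filter (a < ·) := ⟨_, rfl⟩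
  have h1 : ∀ i ∈ J1, i < a := fun i hi => by
    rw [hJ1] at hi
    exact (Finset.mem_filter.1 hi).2
  have h3 : ∀ i ∈ J2, a < i := fun i hi => by
    rw [hJ2] at hi
    exact (Finset.mem_filter.1 hi).2
  have hsplit : ∀ G : I → ℝ, ∏ i ∈ J, G i = (∏ i ∈ J1, G i) * (G a * ∏ i ∈ J2, G i) := by
    intro G
    rw [← Finset.prod_filter_mul_prod_filter_not J (· < a) G, hJ1]
    congr 1
    have : J.filter (fun i => ¬ i < a) = insert a J2 := by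
      ext i
      rw [hJ2]
      simp only [Finset.mem_filter, Finset.mem_insert, not_lt]
      constructor
      · rintro ⟨h4, h5⟩
        rcases h5.eq_or_lt with h6 | h6
        · exact Or.inl h6.symm
        · exact Or.inr ⟨h4, h6⟩
      · rintro (h4 | ⟨h4, h5⟩)
        · rw [h4]
          exact ⟨ha, le_rfl⟩
        · exact ⟨h4, h5.le⟩
    rw [this, Finset.prod_insert fun h => lt_irrefl _ (h3 a h)]
  have hP : BM (𝒢 a) (fun ω => ∏ i ∈ J1, (1 + s i * ρ i ω)) :=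
    BM.prod J1 fun i hi => (BM.const 1).add ((hρ i a (h1 i hi)).smul _)
  have hP0 := hP.mono (h𝒢 a)
  have e1 : ∀ ω, (∏ i ∈ J, (1 + s i * ρ i ω)) * ρ a ω =
      (((∏ i ∈ J1, (1 + s i * ρ i ω)) * (1 + s a * ρ a ω)) * ρ a ω) *
        ∏ i ∈ J2, (1 + s i * ρ i ω) := by
    intro ω
    rw [hsplit]
    ring
  simp_rw [e1]
  rw [remove ν 𝒢 h𝒢 ρ hρ hρm h0 s J2
    (fun ω => ((∏ i ∈ J1, (1 + s i * ρ i ω)) * (1 + s a * ρ a ω)) * ρ a ω)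
    ((hP0.mul ((BM.const 1).add ((hρm a).smul _))).mul (hρm a)) (fun j hj => by
      have hPj : BM (𝒢 j) (fun ω => ∏ i ∈ J1, (1 + s i * ρ i ω)) :=
        BM.prod J1 fun i hi => (BM.const 1).add ((hρ i j ((h1 i hi).trans (h3 j hj))).smul _)
      exact (hPj.mul ((BM.const 1).add ((hρ a j (h3 j hj)).smul _))).mul (hρ a j (h3 j hj)))]
  have e2 : ∀ ω, ((∏ i ∈ J1, (1 + s i * ρ i ω)) * (1 + s a * ρ a ω)) * ρ a ω =
      (∏ i ∈ J1, (1 + s i * ρ i ω)) * ρ a ω +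
        s a * ((∏ i ∈ J1, (1 + s i * ρ i ω)) * (ρ a ω) ^ 2) := by
    intro ω
    ring
  have hρ2 : BM m0 (fun ω => (ρ a ω) ^ 2) := by
    have := (hρm a).mul (hρm a)
    simpa [sq] using this
  simp_rw [e2]
  rw [integral_add ((hP0.mul (hρm a)).int le_rfl) (((hP0.mul hρ2).smul _).int le_rfl),
    integral_const_mul, h0 a _ hP, zero_add, h2 a _ hP]
  congr 1
  have e3 : ∀ ω, (∏ i ∈ J1, (1 + s i * ρ i ω)) * v a ω =
      v a ω * ∏ i ∈ J1, (1 + s i * ρ i ω) := fun ω => mul_comm _ _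
  simp_rw [e3]
  exact remove ν 𝒢 h𝒢 ρ hρ hρm h0 s J1 (v a) (hvm a) fun i _ => hv a i

theorem Tsum {X : Type} [NormedAddCommGroup X] [NormedSpace ℝ X] (T : X →ₗ[ℝ] Lp ℝ 1 ν)
    (x : I → X) (F : I → Ω → ℝ) (hF : ∀ i, T (x i) =ᵐ[ν] F i) (J : Finset I) (a : I → ℝ) :
    T (∑ i ∈ J, a i • x i) =ᵐ[ν] fun ω => ∑ i ∈ J, a i * F i ω := by
  induction J using Finset.induction_on with
  | empty =>
    simp only [Finset.sum_empty, map_zero]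
    exact Lp.coeFn_zero _ _ _
  | insert b J hb ih =>
    rw [Finset.sum_insert hb, map_add, map_smul]
    filter_upwards [ih, hF b, Lp.coeFn_add (a b • T (x b)) (T (∑ i ∈ J, a i • x i)),
      Lp.coeFn_smul (a b) (T (x b))] with ω h1 h2 h3 h4
    rw [h3, Pi.add_apply, h4, Pi.smul_apply, h1, h2, Finset.sum_insert hb, smul_eq_mul]

theorem l1 {X : Type} [NormedAddCommGroup X] [NormedSpace ℝ X] (T : X →ₗ[ℝ] Lp ℝ 1 ν)
    (hT : ∀ x, ∀ᵐ ω ∂ν, |T x ω| ≤ ‖x‖)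
    (𝒢 : I → MeasurableSpace Ω) (h𝒢 : ∀ i, 𝒢 i ≤ m0) (ρ : I → Ω → ℝ)
    (hρ : ∀ i j, i < j → BM (𝒢 j) (ρ i)) (hρm : ∀ i, BM m0 (ρ i)) (hρ1 : ∀ i ω, |ρ i ω| ≤ 1)
    (h0 : ∀ i w, BM (𝒢 i) w → ∫ ω, w ω * ρ i ω ∂ν = 0) (v : I → Ω → ℝ)
    (hv : ∀ i j, BM (𝒢 j) (v i)) (hvm : ∀ i, BM m0 (v i))
    (h2 : ∀ i w, BM (𝒢 i) w → ∫ ω, w ω * (ρ i ω) ^ 2 ∂ν = ∫ ω, w ω * v i ω ∂ν)
    (g : I → Ω → ℝ) (hg : ∀ i j, BM (𝒢 j) (g i)) (hgm : ∀ i, BM m0 (g i))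
    (x : I → X) (hF : ∀ i, T (x i) =ᵐ[ν] fun ω => g i ω + 2 * ρ i ω) (c : ℝ)
    (hc : ∀ i, c ≤ ∫ ω, v i ω ∂ν) (J : Finset I) (a : I → ℝ) :
    4 * c * ∑ i ∈ J, |a i| ≤ 2 * ν.real univ * ‖∑ i ∈ J, a i • x i‖ := by
  have hsign : ∀ t : ℝ, ∃ s : ℝ, |s| ≤ 1 ∧ t * s = |t| := by
    intro t
    rcases le_total 0 t with h | h
    · exact ⟨1, by simp, by rw [abs_of_nonneg h, mul_one]⟩
    · exact ⟨-1, by simp, by rw [abs_of_nonpos h, mul_neg_one]⟩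
  choose sg hsg1 hsg2 using hsign
  obtain ⟨s, hs⟩ : ∃ s : I → ℝ, s = fun i => sg (a i) := ⟨_, rfl⟩
  have hs1 : ∀ i, |s i| ≤ 1 := fun i => by rw [hs]; exact hsg1 _
  have hs2 : ∀ i, a i * s i = |a i| := fun i => by rw [hs]; exact hsg2 _
  have hPos : ∀ (σ : I → ℝ), (∀ i, |σ i| ≤ 1) → ∀ ω, 0 ≤ ∏ i ∈ J, (1 + σ i * ρ i ω) := by
    intro σ hσ ω
    refine Finset.prod_nonneg fun i _ => ?_
    have h3 : |σ i * ρ i ω| ≤ 1 := by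
      rw [abs_mul]
      exact mul_le_one₀ (hσ i) (abs_nonneg _) (hρ1 i ω)
    linarith [(abs_le.1 h3).1]
  have hBP : ∀ (σ : I → ℝ), BM m0 (fun ω => ∏ i ∈ J, (1 + σ i * ρ i ω)) := fun σ =>
    BM.prod J fun i _ => (BM.const 1).add ((hρm i).smul _)
  have hmass : ∀ (σ : I → ℝ), ∫ ω, ∏ i ∈ J, (1 + σ i * ρ i ω) ∂ν = ν.real univ := by
    intro σ
    have := remove ν 𝒢 h𝒢 ρ hρ hρm h0 σ J (fun _ => 1) (BM.const 1) fun i _ => BM.const 1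
    simpa using this
  have hFi : ∀ (σ : I → ℝ) (i : I), i ∈ J →
      ∫ ω, (∏ i ∈ J, (1 + σ i * ρ i ω)) * (g i ω + 2 * ρ i ω) ∂ν =
        ∫ ω, g i ω ∂ν + 2 * (σ i * ∫ ω, v i ω ∂ν) := by
    intro σ i hi
    have e1 : ∀ ω, (∏ i ∈ J, (1 + σ i * ρ i ω)) * (g i ω + 2 * ρ i ω) =
        g i ω * (∏ i ∈ J, (1 + σ i * ρ i ω)) + 2 * ((∏ i ∈ J, (1 + σ i * ρ i ω)) * ρ i ω) := by
      intro ω
      ring
    simp_rw [e1]
    rw [integral_add (((hgm i).mul (hBP σ)).int le_rfl)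
      ((((hBP σ).mul (hρm i)).smul 2).int le_rfl), integral_const_mul,
      remove ν 𝒢 h𝒢 ρ hρ hρm h0 σ J (g i) (hgm i) (fun j _ => hg i j),
      val ν 𝒢 h𝒢 ρ hρ hρm h0 v hv hvm h2 σ J i hi]
  -- the sum
  obtain ⟨Φ, hΦ⟩ : ∃ Φ : Ω → ℝ, Φ = fun ω => ∑ i ∈ J, a i * (g i ω + 2 * ρ i ω) := ⟨_, rfl⟩
  have hΦe := Tsum ν T x _ hF J a
  have hΦb : ∀ᵐ ω ∂ν, |Φ ω| ≤ ‖∑ i ∈ J, a i • x i‖ := by
    filter_upwards [hT (∑ i ∈ J, a i • x i), hΦe] with ω h3 h4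
    rw [hΦ]
    rw [h4] at h3
    exact h3
  have hΦm : BM m0 Φ := by
    rw [hΦ]
    have h3 : ∀ J' : Finset I, BM m0 (fun ω => ∑ i ∈ J', a i * (g i ω + 2 * ρ i ω)) := by
      intro J'
      induction J' using Finset.induction_on with
      | empty => simpa using BM.const 0
      | insert b J' hb ih =>
        simp only [Finset.sum_insert hb]
        exact (((hgm b).add ((hρm b).smul 2)).smul (a b)).add ih
    exact h3 J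
  have hint : ∀ σ : I → ℝ, ∫ ω, (∏ i ∈ J, (1 + σ i * ρ i ω)) * Φ ω ∂ν =
      ∑ i ∈ J, a i * (∫ ω, g i ω ∂ν + 2 * (σ i * ∫ ω, v i ω ∂ν)) := by
    intro σ
    have e1 : ∀ ω, (∏ i ∈ J, (1 + σ i * ρ i ω)) * Φ ω =
        ∑ i ∈ J, a i * ((∏ i ∈ J, (1 + σ i * ρ i ω)) * (g i ω + 2 * ρ i ω)) := by
      intro ω
      rw [hΦ, Finset.mul_sum]
      refine Finset.sum_congr rfl fun i _ => ?_
      ring
    simp_rw [e1]
    rw [integral_finsetSum J fun i _ =>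
      (((hBP σ).mul ((hgm i).add ((hρm i).smul 2))).smul (a i)).int le_rfl]
    refine Finset.sum_congr rfl fun i hi => ?_
    rw [integral_const_mul, hFi σ i hi]
  have hI1 := hint s
  have hI2 := hint fun i => - s i
  have hp1 := hPos s hs1
  have hp2 := hPos (fun i => - s i) fun i => by rw [abs_neg]; exact hs1 i
  obtain ⟨P, hPd⟩ : ∃ P : Ω → ℝ, P = fun ω => ∏ i ∈ J, (1 + s i * ρ i ω) := ⟨_, rfl⟩
  obtain ⟨Q, hQd⟩ : ∃ Q : Ω → ℝ, Q = fun ω => ∏ i ∈ J, (1 + - s i * ρ i ω) := ⟨_, rfl⟩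
  have hPm : BM m0 P := by rw [hPd]; exact hBP s
  have hQm : BM m0 Q := by rw [hQd]; exact hBP fun i => - s i
  have hP0 : ∀ ω, 0 ≤ P ω := fun ω => by rw [hPd]; exact hp1 ω
  have hQ0 : ∀ ω, 0 ≤ Q ω := fun ω => by rw [hQd]; exact hp2 ω
  have hPi : ∫ ω, P ω ∂ν = ν.real univ := by rw [hPd]; exact hmass s
  have hQi : ∫ ω, Q ω ∂ν = ν.real univ := by rw [hQd]; exact hmass fun i => - s i
  have hdiff : ∫ ω, (P ω * Φ ω - Q ω * Φ ω) ∂ν = ∑ i ∈ J, 4 * (|a i| * ∫ ω, v i ω ∂ν) := by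
    rw [integral_sub ((hPm.mul hΦm).int le_rfl) ((hQm.mul hΦm).int le_rfl)]
    have e1 : ∫ ω, P ω * Φ ω ∂ν =
        ∑ i ∈ J, a i * (∫ ω, g i ω ∂ν + 2 * (s i * ∫ ω, v i ω ∂ν)) := by rw [hPd]; exact hI1
    have e2 : ∫ ω, Q ω * Φ ω ∂ν =
        ∑ i ∈ J, a i * (∫ ω, g i ω ∂ν + 2 * (- s i * ∫ ω, v i ω ∂ν)) := by rw [hQd]; exact hI2
    rw [e1, e2, ← Finset.sum_sub_distrib]
    refine Finset.sum_congr rfl fun i _ => ?_
    rw [← hs2 i]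
    ring
  have hle : ∫ ω, (P ω * Φ ω - Q ω * Φ ω) ∂ν ≤
      ∫ ω, (P ω + Q ω) * ‖∑ i ∈ J, a i • x i‖ ∂ν := by
    refine integral_mono_ae (((hPm.mul hΦm).int le_rfl).sub ((hQm.mul hΦm).int le_rfl))
      (((hPm.add hQm).mul (BM.const _)).int le_rfl) ?_
    filter_upwards [hΦb] with ω hω
    have h3 := abs_le.1 hω
    have h4 := hP0 ω
    have h5 := hQ0 ω
    nlinarith
  rw [hdiff, integral_mul_const, integral_add (hPm.int le_rfl) (hQm.int le_rfl), hPi, hQi] at hle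
  refine le_trans ?_ (hle.trans (le_of_eq (by ring)))
  rw [Finset.mul_sum]
  refine Finset.sum_le_sum fun i _ => ?_
  have h3 := mul_le_mul_of_nonneg_left (hc i) (abs_nonneg (a i))
  nlinarith

end Riesz

end Pool.Agent.H253.WS
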