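import Pool.Agent.H624.WS.Stm
import Pool.Agent.H253.WS.Riesz

/-! Part of `S_L` (MP_33144e_an, project of helper624): the density of the range. -/

set_option autoImplicit false

open Set MeasureTheory Filter Topology Cardinal

namespace Pool.Agent.H253.WS

open Pool.Agent.H624.WS

theorem count (n : ℕ) (t : ℝ) (h0 : 0 ≤ t) (hn : t ≤ n) :
    |t - ∑ i : Fin n, (if ((i : ℕ) : ℝ) + 1 ≤ t then (1 : ℝ) else 0)| ≤ 1 := by
  have h1 : ∑ i : Fin n, (if ((i : ℕ) : ℝ) + 1 ≤ t then (1 : ℝ) else 0) = ⌊t⌋₊ := by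
    rw [Fin.sum_univ_eq_sum_range (fun i => if (i : ℝ) + 1 ≤ t then (1 : ℝ) else 0) n,
      ← Finset.sum_filter, Finset.sum_const, nsmul_eq_mul, mul_one]
    congr 1
    have h2 : (Finset.range n).filter (fun i : ℕ => (i : ℝ) + 1 ≤ t) = Finset.range ⌊t⌋₊ := by
      ext i
      rw [Finset.mem_filter, Finset.mem_range, Finset.mem_range]
      have h3 : i < ⌊t⌋₊ ↔ (i : ℝ) + 1 ≤ t := by
        rw [← Nat.add_one_le_iff, Nat.le_floor_iff h0]
        push_cast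
        exact Iff.rfl
      rw [← h3]
      have h4 : ⌊t⌋₊ ≤ n := Nat.floor_le_of_le hn
      omega
    rw [h2, Finset.card_range]
  rw [h1, abs_le]
  have h2 := Nat.floor_le h0
  have h3 := Nat.lt_floor_add_one t
  constructor <;> linarith

/-- the step function attached to a list of sets -/
noncomputable def stepF {Ω : Type} {𝒜 : Set (Set Ω)} (l : List 𝒜) (ω : Ω) : ℝ :=
  -1 + (2 / (l.length : ℝ)) * (l.map fun a => Set.indicator a.1 (fun _ => (1 : ℝ)) ω).sum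

theorem stepF_meas {Ω : Type} [MeasurableSpace Ω] {𝒜 : Set (Set Ω)}
    (h𝒜 : ∀ s ∈ 𝒜, MeasurableSet s) (l : List 𝒜) : Measurable (stepF l) := by
  unfold stepF
  refine measurable_const.add (Measurable.const_mul ?_ _)
  induction l with
  | nil => simp
  | cons a l ih =>
    simp only [List.map_cons, List.sum_cons]
    exact (measurable_const.indicator (h𝒜 _ a.2)).add ih

theorem stepF_bdd {Ω : Type} {𝒜 : Set (Set Ω)} (l : List 𝒜) (ω : Ω) : |stepF l ω| ≤ 3 := by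
  have h1 : 0 ≤ (l.map fun a => Set.indicator a.1 (fun _ => (1 : ℝ)) ω).sum ∧
      (l.map fun a => Set.indicator a.1 (fun _ => (1 : ℝ)) ω).sum ≤ l.length := by
    induction l with
    | nil => simp
    | cons a l ih =>
      simp only [List.map_cons, List.sum_cons, List.length_cons]
      have h2 : 0 ≤ Set.indicator a.1 (fun _ => (1 : ℝ)) ω :=
        Set.indicator_nonneg (fun _ _ => zero_le_one) _
      have h3 : Set.indicator a.1 (fun _ => (1 : ℝ)) ω ≤ 1 :=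
        Set.indicator_le_self' (fun _ _ => zero_le_one) _
      push_cast
      constructor <;> linarith [ih.1, ih.2]
  unfold stepF
  have h4 : (2 / (l.length : ℝ)) * (l.map fun a => Set.indicator a.1 (fun _ => (1 : ℝ)) ω).sum ≤ 2 := by
    rcases Nat.eq_zero_or_pos l.length with h | h
    · rw [h]; simp
    · have h' : (0 : ℝ) < l.length := by exact_mod_cast h
      rw [div_mul_eq_mul_div, div_le_iff₀ h']
      linarith [h1.2]
  have h5 : 0 ≤ (2 / (l.length : ℝ)) * (l.map fun a => Set.indicator a.1 (fun _ => (1 : ℝ)) ω).sum :=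
    mul_nonneg (by positivity) h1.1
  rw [abs_le]
  constructor <;> linarith

theorem apx {Ω : Type} (m : MeasurableSpace Ω) {m0 : MeasurableSpace Ω} (ν : Measure Ω)
    [IsFiniteMeasure ν] (hm : m ≤ m0) (𝒜 : Set (Set Ω)) (h𝒜m : ∀ s ∈ 𝒜, MeasurableSet s)
    (h𝒜 : ∀ s : Set Ω, MeasurableSet[m] s → ∀ ε : ℝ, 0 < ε → ∃ a ∈ 𝒜, ν.real (symmDiff s a) < ε)
    (g : Ω → ℝ) (hg : Measurable[m] g) (hg1 : ∀ ω, |g ω| ≤ 1) (ε : ℝ) (hε : 0 < ε) :
    ∃ l : List 𝒜, ∫ ω, |g ω - stepF l ω| ∂ν < ε := by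
  classical
  obtain ⟨j, hj⟩ := exists_nat_gt (ν.real univ * 3 / ε)
  have hV : 0 ≤ ν.real univ := measureReal_nonneg
  have hj0 : (0 : ℝ) < j := lt_of_le_of_lt (by positivity) hj
  have hj1 : ν.real univ * (1 / j) < ε / 3 := by
    rw [div_lt_iff₀ hε] at hj
    rw [mul_one_div, div_lt_iff₀ hj0]
    linarith
  obtain ⟨s, hs⟩ : ∃ s : Fin (2 * j) → Set Ω, s = fun i : Fin (2 * j) => {ω | ((i : ℕ) : ℝ) + 1 ≤ (g ω + 1) * j} :=
    ⟨_, rfl⟩
  have hsm : ∀ i, MeasurableSet[m] (s i) := by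
    intro i
    rw [hs]
    exact measurableSet_le measurable_const ((hg.add_const 1).mul_const _)
  choose a ha hsa using fun i => h𝒜 (s i) (hsm i) (ε / 6) (by positivity)
  obtain ⟨l, hl⟩ : ∃ l : List 𝒜, l = List.ofFn fun i => (⟨a i, ha i⟩ : 𝒜) := ⟨_, rfl⟩
  refine ⟨l, ?_⟩
  have hlF : ∀ ω, stepF l ω = -1 + (1 / (j : ℝ)) *
      ∑ i, Set.indicator (a i) (fun _ => (1 : ℝ)) ω := by
    intro ω
    unfold stepF
    rw [hl, List.length_ofFn, List.map_ofFn, List.sum_ofFn]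
    congr 2
    push_cast
    field_simp
  have hind : ∀ (i : Fin (2 * j)) (ω : Ω), Set.indicator (s i) (fun _ => (1 : ℝ)) ω =
      if ((i : ℕ) : ℝ) + 1 ≤ (g ω + 1) * j then (1 : ℝ) else 0 := by
    intro i ω
    rw [hs, Set.indicator_apply]
    rfl
  have hpt : ∀ ω, |g ω - stepF l ω| ≤ 1 / (j : ℝ) + (1 / (j : ℝ)) *
      ∑ i, Set.indicator (symmDiff (s i) (a i)) (fun _ => (1 : ℝ)) ω := by
    intro ω
    have hb := abs_le.1 (hg1 ω)
    have h1 := count (2 * j) ((g ω + 1) * j) (mul_nonneg (by linarith) hj0.le) (by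
      push_cast
      exact mul_le_mul_of_nonneg_right (by linarith) hj0.le)
    simp_rw [← hind] at h1
    have h2 : g ω - stepF l ω = (1 / (j : ℝ)) * ((g ω + 1) * j -
        ∑ i, Set.indicator (s i) (fun _ => (1 : ℝ)) ω) + (1 / (j : ℝ)) *
        ∑ i, (Set.indicator (s i) (fun _ => (1 : ℝ)) ω - Set.indicator (a i) (fun _ => (1 : ℝ)) ω) := by
      rw [hlF, Finset.sum_sub_distrib]
      field_simp
      ring
    rw [h2]
    refine (abs_add_le _ _).trans (add_le_add ?_ ?_)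
    · rw [abs_mul, abs_of_pos (by positivity)]
      exact mul_le_of_le_one_right (by positivity) h1
    · rw [abs_mul, abs_of_pos (by positivity)]
      refine mul_le_mul_of_nonneg_left ?_ (by positivity)
      refine (Finset.abs_sum_le_sum_abs _ _).trans (Finset.sum_le_sum fun i _ => ?_)
      by_cases h3 : ω ∈ s i <;> by_cases h4 : ω ∈ a i <;>
        simp [Set.indicator_apply, Set.mem_symmDiff, h3, h4]
  have hsd : ∀ i, MeasurableSet (symmDiff (s i) (a i)) := fun i =>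
    (hm _ (hsm i)).symmDiff (h𝒜m _ (ha i))
  have hii : ∀ i, Integrable (Set.indicator (symmDiff (s i) (a i)) fun _ => (1 : ℝ)) ν := fun i =>
    (integrable_const _).indicator (hsd i)
  have hsi : Integrable (fun ω => ∑ i, Set.indicator (symmDiff (s i) (a i)) (fun _ => (1 : ℝ)) ω) ν :=
    integrable_finsetSum _ fun i _ => hii i
  have hgi : Integrable (fun ω => |g ω - stepF l ω|) ν := by
    refine (Integrable.sub ?_ ?_).abs
    · exact Integrable.of_bound (hg.mono hm le_rfl).aestronglyMeasurable 1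
        (Eventually.of_forall fun ω => by rw [Real.norm_eq_abs]; exact hg1 ω)
    · exact Integrable.of_bound (stepF_meas h𝒜m l).aestronglyMeasurable 3
        (Eventually.of_forall fun ω => by rw [Real.norm_eq_abs]; exact stepF_bdd l ω)
  calc ∫ ω, |g ω - stepF l ω| ∂ν ≤ ∫ ω, (1 / (j : ℝ) + (1 / (j : ℝ)) *
        ∑ i, Set.indicator (symmDiff (s i) (a i)) (fun _ => (1 : ℝ)) ω) ∂ν :=
        integral_mono hgi ((integrable_const _).add (hsi.const_mul _)) hpt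
    _ = ν.real univ * (1 / j) + (1 / (j : ℝ)) * ∑ i, ν.real (symmDiff (s i) (a i)) := by
        rw [integral_add (integrable_const _) (hsi.const_mul _), integral_const, smul_eq_mul,
          integral_const_mul, integral_finsetSum _ fun i _ => hii i]
        congr 2
        refine Finset.sum_congr rfl fun i _ => ?_
        rw [integral_indicator_const _ (hsd i), smul_eq_mul, mul_one]
    _ ≤ ν.real univ * (1 / j) + (1 / (j : ℝ)) * ∑ _i : Fin (2 * j), ε / 6 := by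
        gcongr with i
        exact (hsa i).le
    _ = ν.real univ * (1 / j) + ε / 3 := by
        rw [Finset.sum_const, Finset.card_univ, Fintype.card_fin, nsmul_eq_mul]
        push_cast
        field_simp
        ring
    _ < ε := by linarith

theorem dens (hALG : S_ALG) {κ : Cardinal.{0}} (hκ : κ.IsRegular) (hκ0 : ℵ₀ < κ) {Ω : Type}
    [MeasurableSpace Ω] (ν : Measure Ω) [IsFiniteMeasure ν] {X : Type} [NormedAddCommGroup X]
    [NormedSpace ℝ X] (T : X →ₗ[ℝ] Lp ℝ 1 ν) (f : X → Ω → ℝ) (hf : ∀ x, Measurable (f x))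
    (hfT : ∀ x, T x =ᵐ[ν] f x) (hfb : ∀ x ω, |f x ω| ≤ ‖x‖)
    (h : ∀ ε : ℝ, 0 < ε → ∃ D : Set X, Cardinal.mk D < κ ∧ ∀ x, ‖x‖ ≤ 1 →
      ∃ g : Ω → ℝ, Measurable[Gen f D] g ∧ (∀ ω, |g ω| ≤ 1) ∧ ∫ ω, |f x ω - g ω| ∂ν < ε) :
    ∃ X₀ : Set X, Cardinal.mk X₀ < κ ∧ ∀ x : X, ∀ ε : ℝ, 0 < ε → ∃ x' ∈ X₀, ‖T x - T x'‖ < ε := by
  classical
  have hfi : ∀ x, Integrable (f x) ν := fun x =>
    Integrable.of_bound (hf x).aestronglyMeasurable ‖x‖
      (Eventually.of_forall fun ω => by rw [Real.norm_eq_abs]; exact hfb x ω)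
  have hnorm : ∀ x y, ‖T x - T y‖ = ∫ ω, |f x ω - f y ω| ∂ν := by
    intro x y
    rw [L1.norm_eq_integral_norm]
    refine integral_congr_ae ?_
    filter_upwards [hfT x, hfT y, Lp.coeFn_sub (T x) (T y)] with ω h1 h2 h3
    rw [h3, Pi.sub_apply, h1, h2, Real.norm_eq_abs]
  choose D hD1 hD2 using fun k : ℕ => h (1 / (k + 1)) (by positivity)
  obtain ⟨E, hE⟩ : ∃ E : Set X, E = ⋃ k, D k := ⟨_, rfl⟩
  have hE1 : Cardinal.mk E < κ := by
    rw [hE]
    exact (card_iUnion_lt_iff_forall_of_isRegular hκ (by simpa using hκ0)).2 hD1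
  have hGS : Cardinal.mk (GenS f E) < κ := by
    have h1 : GenS f E ⊆ range (fun p : E × ℚ => {ω | f p.1 ω < (p.2 : ℝ)}) := by
      rintro s ⟨x, hx, q, rfl⟩
      exact ⟨(⟨x, hx⟩, q), rfl⟩
    refine (mk_le_mk_of_subset h1).trans_lt (mk_range_le.trans_lt ?_)
    rw [mk_prod, Cardinal.lift_id, Cardinal.lift_id]
    exact mul_lt_of_lt hκ.aleph0_le hE1 (by simpa using hκ0)
  obtain ⟨𝒜, h𝒜1, h𝒜2, h𝒜3⟩ := hALG κ hκ0 Ω ν (GenS f E) hGS (by
    rintro s ⟨x, -, q, rfl⟩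
    exact hf x measurableSet_Iio)
  -- the chosen points
  let x0 : List 𝒜 → ℕ → X := fun l n =>
    if hx : ∃ x : X, ‖x‖ ≤ 1 ∧ ∫ ω, |f x ω - stepF l ω| ∂ν < 1 / ((n : ℝ) + 1) then hx.choose else 0
  have hx0 : ∀ (l : List 𝒜) (n : ℕ), (∃ x : X, ‖x‖ ≤ 1 ∧ ∫ ω, |f x ω - stepF l ω| ∂ν < 1 / ((n : ℝ) + 1)) →
      ‖x0 l n‖ ≤ 1 ∧ ∫ ω, |f (x0 l n) ω - stepF l ω| ∂ν < 1 / ((n : ℝ) + 1) := by
    intro l n hx
    simp only [x0]
    rw [dif_pos hx]
    exact hx.choose_spec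
  refine ⟨range (fun p : List 𝒜 × ℕ × ℕ => (p.2.2 : ℝ) • x0 p.1 p.2.1), ?_, fun x ε hε => ?_⟩
  · refine mk_range_le.trans_lt ?_
    rw [mk_prod, Cardinal.lift_id, Cardinal.lift_id]
    refine mul_lt_of_lt hκ.aleph0_le ((mk_list_le_max _).trans_lt (max_lt hκ0 h𝒜1)) ?_
    simpa using hκ0
  obtain ⟨N, hN⟩ := exists_nat_ge (max 1 ‖x‖)
  have hN1 : (1 : ℝ) ≤ N := (le_max_left _ _).trans hN
  have hN2 : ‖x‖ ≤ N := (le_max_right _ _).trans hN
  have hN0 : (0 : ℝ) < N := by linarith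
  obtain ⟨n, hn⟩ := exists_nat_gt (4 * N / ε)
  have hn1 : (N : ℝ) * (2 * (1 / ((n : ℝ) + 1))) < ε := by
    rw [div_lt_iff₀ hε] at hn
    rw [mul_one_div, ← mul_div_assoc, div_lt_iff₀ (by positivity)]
    nlinarith
  obtain ⟨y, hy⟩ : ∃ y : X, y = (N : ℝ)⁻¹ • x := ⟨_, rfl⟩
  have hy1 : ‖y‖ ≤ 1 := by
    rw [hy, norm_smul, norm_inv, Real.norm_of_nonneg hN0.le, inv_mul_le_iff₀ hN0]
    linarith
  have hxy : x = (N : ℝ) • y := by
    rw [hy, smul_smul, mul_inv_cancel₀ hN0.ne', one_smul]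
  obtain ⟨g, hg1, hg2, hg3⟩ := hD2 (2 * n + 1) y hy1
  have hgE : Measurable[Gen f E] g :=
    hg1.mono (Gen_mono f (by rw [hE]; exact subset_iUnion D _)) le_rfl
  obtain ⟨l, hl⟩ := apx (Gen f E) ν (Gen_le f hf E) 𝒜 h𝒜2 h𝒜3 g hgE hg2
    (1 / (2 * ((n : ℝ) + 1))) (by positivity)
  have hgi : Integrable g ν := Integrable.of_bound (hgE.mono (Gen_le f hf E) le_rfl).aestronglyMeasurable 1
    (Eventually.of_forall fun ω => by rw [Real.norm_eq_abs]; exact hg2 ω)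
  have hsi : Integrable (stepF l) ν := Integrable.of_bound (stepF_meas h𝒜2 l).aestronglyMeasurable 3
    (Eventually.of_forall fun ω => by rw [Real.norm_eq_abs]; exact stepF_bdd l ω)
  have htri : ∀ (u v w : Ω → ℝ), Integrable u ν → Integrable v ν → Integrable w ν →
      ∫ ω, |u ω - w ω| ∂ν ≤ ∫ ω, |u ω - v ω| ∂ν + ∫ ω, |v ω - w ω| ∂ν := by
    intro u v w hu hv hw
    have h9 := integral_add (hu.sub hv).abs (hv.sub hw).abs
    simp only [Pi.sub_apply] at h9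
    rw [← h9]
    exact integral_mono (hu.sub hw).abs ((hu.sub hv).abs.add (hv.sub hw).abs)
      fun ω => abs_sub_le _ _ _
  have h1 : ∫ ω, |f y ω - stepF l ω| ∂ν < 1 / ((n : ℝ) + 1) := by
    refine (htri _ _ _ (hfi y) hgi hsi).trans_lt ?_
    have h2 : (1 : ℝ) / (((2 * n + 1 : ℕ) : ℝ) + 1) = 1 / (2 * ((n : ℝ) + 1)) := by
      push_cast
      congr 1
      ring
    rw [h2] at hg3
    have h3 : (1 : ℝ) / ((n : ℝ) + 1) = 1 / (2 * ((n : ℝ) + 1)) + 1 / (2 * ((n : ℝ) + 1)) := by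
      field_simp
      norm_num
    rw [h3]
    exact add_lt_add hg3 hl
  obtain ⟨h2, h3⟩ := hx0 l n ⟨y, hy1, h1⟩
  refine ⟨(N : ℝ) • x0 l n, ⟨(l, n, N), rfl⟩, ?_⟩
  rw [hxy, map_smul, map_smul, ← smul_sub, norm_smul, Real.norm_of_nonneg hN0.le, hnorm]
  refine lt_of_le_of_lt (mul_le_mul_of_nonneg_left ?_ hN0.le) hn1
  refine (htri _ _ _ (hfi y) hsi (hfi _)).trans ?_
  have h4 : ∫ ω, |stepF l ω - f (x0 l n) ω| ∂ν = ∫ ω, |f (x0 l n) ω - stepF l ω| ∂ν := by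
    refine integral_congr_ae (Eventually.of_forall fun ω => ?_)
    exact abs_sub_comm _ _
  rw [h4]
  linarith

end Pool.Agent.H253.WS
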