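import Pool.Agent.H253.WS.Comb
import Pool.Agent.H253.WS.Dens

/-! `S_L` (MP_33144e_an, project of helper624). -/

set_option autoImplicit false

open Set MeasureTheory Filter Topology Cardinal

namespace Pool.Agent.H253.WS

open Pool.Agent.H624.WS

theorem GenS_image {Ω I X : Type} (f : X → Ω → ℝ) (x : I → X) (S : Set I) :
    GenS f (x '' S) = GenS (fun i => f (x i)) S := by
  ext s
  constructor
  · rintro ⟨_, ⟨i, hi, rfl⟩, q, rfl⟩
    exact ⟨i, hi, q, rfl⟩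
  · rintro ⟨i, hi, q, rfl⟩
    exact ⟨x i, ⟨i, hi, rfl⟩, q, rfl⟩

theorem Gen_image {Ω I X : Type} (f : X → Ω → ℝ) (x : I → X) (S : Set I) :
    Gen f (x '' S) = Gen (fun i => f (x i)) S := by
  unfold Gen
  rw [GenS_image]

/-- a transfinite sequence -/
theorem seq {κ : Cardinal.{0}} {X : Type} (P : Set X → X → Prop)
    (h : ∀ D : Set X, Cardinal.mk D < κ → ∃ x, P D x) (x0 : X) :
    ∃ x : κ.ord.ToType → X, ∀ a, P (x '' Iio a) (x a) := by
  classical
  have : ∃ pick : Set X → X, ∀ D : Set X, Cardinal.mk D < κ → P D (pick D) := by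
    refine ⟨fun D => if hD : Cardinal.mk D < κ then (h D hD).choose else x0, fun D hD => ?_⟩
    simp only [hD, dite_true]
    exact (h D hD).choose_spec
  obtain ⟨pick, hpick⟩ := this
  let x : κ.ord.ToType → X := (wellFounded_lt (α := κ.ord.ToType)).fix fun a ih =>
    pick (range (fun b : Iio a => ih b.1 b.2))
  have hx : ∀ a, x a = pick (range (fun b : Iio a => x b.1)) :=
    fun a => (wellFounded_lt (α := κ.ord.ToType)).fix_eq _ a
  refine ⟨x, fun a => ?_⟩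
  rw [hx a, image_eq_range]
  exact hpick _ (mk_range_le.trans_lt (mk_Iio_toType_ord_lt a))

theorem sL (hALG : S_ALG) : S_L := by
  intro κ hκ h1 Ω _ ν _ X _ _ T hT hnL
  by_contra hcon
  have hκ0 : ℵ₀ < κ := (aleph0_lt_aleph_one).trans h1
  -- measurable representatives
  obtain ⟨f, hfd⟩ : ∃ f : X → Ω → ℝ, f = fun x ω => max (-‖x‖) (min ‖x‖ (T x ω)) := ⟨_, rfl⟩
  have hf : ∀ x, Measurable (f x) := by
    intro x
    rw [hfd]
    exact measurable_const.max (measurable_const.min (Lp.stronglyMeasurable (T x)).measurable)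
  have hfT : ∀ x, T x =ᵐ[ν] f x := by
    intro x
    filter_upwards [hT x] with ω hω
    rw [abs_le] at hω
    rw [hfd]
    simp only
    rw [min_eq_right hω.2, max_eq_right hω.1]
  have hfb : ∀ x ω, |f x ω| ≤ ‖x‖ := by
    intro x ω
    rw [hfd, abs_le]
    exact ⟨le_max_left _ _, max_le (by linarith [norm_nonneg x]) (min_le_left _ _)⟩
  have key : ∃ ε : ℝ, 0 < ε ∧ ∀ D : Set X, Cardinal.mk D < κ → ∃ x, ‖x‖ ≤ 1 ∧
      ∀ g : Ω → ℝ, Measurable[Gen f D] g → (∀ ω, |g ω| ≤ 1) → ε ≤ ∫ ω, |f x ω - g ω| ∂ν := by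
    by_contra hc
    push Not at hc
    exact hcon (dens hALG hκ hκ0 ν T f hf hfT hfb hc)
  obtain ⟨ε, hε, hkey⟩ := key
  obtain ⟨x, hx⟩ := seq (κ := κ) (fun (D : Set X) (x : X) => ‖x‖ ≤ 1 ∧
    ∀ g : Ω → ℝ, Measurable[Gen f D] g → (∀ ω, |g ω| ≤ 1) → ε ≤ ∫ ω, |f x ω - g ω| ∂ν) hkey 0
  obtain ⟨F, hFd⟩ : ∃ F : κ.ord.ToType → Ω → ℝ, F = fun a => f (x a) := ⟨_, rfl⟩
  have hFm : ∀ a, Measurable (F a) := fun a => by rw [hFd]; exact hf _
  have hF1 : ∀ a ω, |F a ω| ≤ 1 := fun a ω => by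
    rw [hFd]
    exact (hfb _ ω).trans (hx a).1
  have hFg : ∀ a (g : Ω → ℝ), Measurable[Gen F (Iio a)] g → (∀ ω, |g ω| ≤ 1) →
      ε ≤ ∫ ω, |F a ω - g ω| ∂ν := by
    intro a g hg hg1
    have h2 := (hx a).2 g (by rw [Gen_image, ← hFd]; exact hg) hg1
    rw [hFd]
    exact h2
  have hGle : ∀ a, Gen F (Iio a) ≤ _ := fun a => Gen_le F hFm (Iio a)
  -- conditional expectations
  choose g hg1 hg2 hg3 using fun a => CE (Gen F (Iio a)) ν (hGle a) (F a) (hFm a) (hF1 a)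
  obtain ⟨ρ, hρd⟩ : ∃ ρ : κ.ord.ToType → Ω → ℝ, ρ = fun a ω => (F a ω - g a ω) / 2 := ⟨_, rfl⟩
  have hρm : ∀ a, Measurable (ρ a) := by
    intro a
    rw [hρd]
    exact ((hFm a).sub ((hg1 a).mono (hGle a) le_rfl)).div_const 2
  have hρ1 : ∀ a ω, |ρ a ω| ≤ 1 := by
    intro a ω
    have h3 := abs_le.1 (hF1 a ω)
    have h4 := abs_le.1 (hg2 a ω)
    rw [hρd, abs_le]
    constructor <;> simp only <;> linarith [h3.1, h3.2, h4.1, h4.2]
  have hFgρ : ∀ a ω, F a ω = g a ω + 2 * ρ a ω := by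
    intro a ω
    rw [hρd]
    ring
  choose v hv1 hv2 hv3 using fun a => CE (Gen F (Iio a)) ν (hGle a) (fun ω => (ρ a ω) ^ 2)
    ((hρm a).pow_const 2) (fun ω => by
      rw [abs_of_nonneg (sq_nonneg _), sq_le_one_iff_abs_le_one]
      exact hρ1 a ω)
  -- pressing down
  have hdir : ∀ a, Good a → ∃ b, b < a ∧ Measurable[Gen F (Iio b)] (g a) ∧
      Measurable[Gen F (Iio b)] (v a) := by
    intro a ha
    obtain ⟨b1, hb1, hb2⟩ := dir_fun F a ha (g a) (hg1 a)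
    obtain ⟨c1, hc1, hc2⟩ := dir_fun F a ha (v a) (hv1 a)
    refine ⟨max b1 c1, max_lt hb1 hc1, ?_, ?_⟩
    · exact hb2.mono (Gen_mono F (Iio_subset_Iio (le_max_left _ _))) le_rfl
    · exact hc2.mono (Gen_mono F (Iio_subset_Iio (le_max_right _ _))) le_rfl
  have hAne : Nonempty κ.ord.ToType := ⟨(bdd hκ ∅ (by simpa using hκ.pos)).choose⟩
  choose! r hr1 hr2 hr3 using hdir
  obtain ⟨β, hβ⟩ := press hκ h1 r hr1
  obtain ⟨B, hB⟩ : ∃ B : Set κ.ord.ToType, B = {a | β < a ∧ Good a ∧ r a ≤ β} := ⟨_, rfl⟩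
  have hBu : ∀ b, ∃ a ∈ B, b < a := by
    intro b
    obtain ⟨a, ha1, ha2, ha3⟩ := hβ (max b β)
    refine ⟨a, ?_, (le_max_left _ _).trans_lt ha1⟩
    rw [hB]
    exact ⟨(le_max_right _ _).trans_lt ha1, ha2, ha3⟩
  have hBc : Cardinal.mk B = κ := by
    refine le_antisymm ((mk_set_le B).trans (le_of_eq (mk_ord_toType κ))) ?_
    by_contra hlt
    obtain ⟨b, hb⟩ := bdd hκ B (not_le.1 hlt)
    obtain ⟨a, ha1, ha2⟩ := hBu b
    exact lt_asymm ha2 (hb a ha1)
  -- the mass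
  have hV : 0 < ν.real univ := by
    rcases (measureReal_nonneg (μ := ν) (s := univ)).eq_or_lt with h2 | h2
    · exfalso
      obtain ⟨a⟩ := hAne
      have h3 := hFg a (g a) (hg1 a) (hg2 a)
      have h4 : ν = 0 := by
        rw [← Measure.measure_univ_eq_zero]
        exact (measureReal_eq_zero_iff).1 h2.symm
      rw [h4, integral_zero_measure] at h3
      linarith
    · exact h2
  obtain ⟨c, hcd⟩ : ∃ c, c = ε ^ 2 / (4 * ν.real univ) := ⟨_, rfl⟩
  have hc0 : 0 < c := by rw [hcd]; positivity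
  have hcv : ∀ a, c ≤ ∫ ω, v a ω ∂ν := by
    intro a
    have h2 := hv3 a (fun _ => 1) (BM.const 1)
    simp only [one_mul] at h2
    rw [← h2]
    have hρi : Integrable (fun ω => |ρ a ω|) ν := (Integrable.of_bound
      (hρm a).aestronglyMeasurable 1 (Eventually.of_forall fun ω => by
        rw [Real.norm_eq_abs]; exact hρ1 a ω)).abs
    have hρ2i : Integrable (fun ω => (ρ a ω) ^ 2) ν := Integrable.of_bound
      ((hρm a).pow_const 2).aestronglyMeasurable 1 (Eventually.of_forall fun ω => by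
        rw [Real.norm_eq_abs, abs_of_nonneg (sq_nonneg _), sq_le_one_iff_abs_le_one]
        exact hρ1 a ω)
    obtain ⟨t, ht⟩ : ∃ t, t = ε / (2 * ν.real univ) := ⟨_, rfl⟩
    have ht0 : 0 < t := by rw [ht]; positivity
    have h3 : ∫ ω, (2 * t * |ρ a ω| - t ^ 2) ∂ν ≤ ∫ ω, (ρ a ω) ^ 2 ∂ν := by
      refine integral_mono ((hρi.const_mul _).sub (integrable_const _)) hρ2i fun ω => ?_
      simp only
      nlinarith [sq_nonneg (|ρ a ω| - t), sq_abs (ρ a ω)]
    rw [integral_sub (hρi.const_mul _) (integrable_const _), integral_const_mul, integral_const,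
      smul_eq_mul] at h3
    have h4 : ε / 2 ≤ ∫ ω, |ρ a ω| ∂ν := by
      have h5 := hFg a (g a) (hg1 a) (hg2 a)
      have h6 : ∫ ω, |F a ω - g a ω| ∂ν = 2 * ∫ ω, |ρ a ω| ∂ν := by
        rw [← integral_const_mul]
        refine integral_congr_ae (Eventually.of_forall fun ω => ?_)
        simp only
        rw [hρd]
        simp only
        rw [abs_div, abs_of_pos (show (0 : ℝ) < 2 by norm_num)]
        ring
      linarith
    have h7 : c = 2 * t * (ε / 2) - ν.real univ * t ^ 2 := by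
      rw [hcd, ht]
      field_simp
      ring
    rw [h7]
    have h8 : 2 * t * (ε / 2) ≤ 2 * t * ∫ ω, |ρ a ω| ∂ν :=
      mul_le_mul_of_nonneg_left h4 (by positivity)
    linarith
  -- the conclusion
  refine hnL ⟨B, fun i => x i.1, 2 * c / ν.real univ, hBc, by positivity, fun i => (hx i.1).1,
    fun J a => ?_⟩
  have hmono : ∀ (i : κ.ord.ToType), i ∈ B → ∀ j : κ.ord.ToType, j ∈ B →
      Gen F (Iio (r i)) ≤ Gen F (Iio j) := by
    intro i hi j hj
    rw [hB] at hi hj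
    exact Gen_mono F (Iio_subset_Iio (hi.2.2.trans hj.1.le))
  have hgood : ∀ i ∈ B, Good i := fun i hi => by rw [hB] at hi; exact hi.2.1
  have hmain := l1 (I := B) ν T hT (fun i => Gen F (Iio i.1)) (fun i => hGle i.1)
    (fun i => ρ i.1) (fun i j hij => by
      refine ⟨?_, 1, hρ1 i.1⟩
      rw [hρd]
      exact ((Gen_meas F (show i.1 ∈ Iio j.1 from hij)).sub
        ((hg1 i.1).mono (Gen_mono F (Iio_subset_Iio (le_of_lt hij))) le_rfl)).div_const 2)
    (fun i => ⟨hρm i.1, 1, hρ1 i.1⟩) (fun i ω => hρ1 i.1 ω)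
    (fun i w hw => by
      have h2 := hg3 i.1 w hw
      have h3 : ∀ ω, w ω * ρ i.1 ω = (1 / 2) * (w ω * F i.1 ω - w ω * g i.1 ω) := by
        intro ω
        rw [hρd]
        ring
      have hw0 := hw.mono (hGle i.1)
      have hF0 : BM _ (F i.1) := ⟨hFm i.1, 1, hF1 i.1⟩
      have hg0 : BM _ (g i.1) := ⟨(hg1 i.1).mono (hGle i.1) le_rfl, 1, hg2 i.1⟩
      simp_rw [h3]
      rw [integral_const_mul, integral_sub ((hw0.mul hF0).int le_rfl) ((hw0.mul hg0).int le_rfl),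
        h2, sub_self, mul_zero])
    (fun i => v i.1)
    (fun i j => ⟨(hr3 i.1 (hgood i.1 i.2)).mono (hmono i.1 i.2 j.1 j.2) le_rfl, 1, hv2 i.1⟩)
    (fun i => ⟨(hv1 i.1).mono (hGle i.1) le_rfl, 1, hv2 i.1⟩)
    (fun i w hw => hv3 i.1 w hw)
    (fun i => g i.1)
    (fun i j => ⟨(hr2 i.1 (hgood i.1 i.2)).mono (hmono i.1 i.2 j.1 j.2) le_rfl, 1, hg2 i.1⟩)
    (fun i => ⟨(hg1 i.1).mono (hGle i.1) le_rfl, 1, hg2 i.1⟩)
    (fun i => x i.1)
    (fun i => by
      filter_upwards [hfT (x i.1)] with ω hω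
      rw [hω, ← hFgρ, hFd])
    c (fun i => hcv i.1) J a
  rw [div_mul_eq_mul_div, div_le_iff₀ hV]
  nlinarith

end Pool.Agent.H253.WS
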