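import Mathlib

/-! Part of `S_L` (MP_33144e_an, project of helper624): sigma-algebras and Riesz products. -/

set_option autoImplicit false

open Set MeasureTheory Filter Topology

namespace Pool.Agent.H253.WS

section Gen

variable {Ω I : Type}

/-- the sigma-algebra generated by the functions `f x`, `x ∈ D` -/
def GenS (f : I → Ω → ℝ) (D : Set I) : Set (Set Ω) :=
  {s | ∃ x ∈ D, ∃ q : ℚ, s = {ω | f x ω < (q : ℝ)}}

/-- the sigma-algebra generated by the functions `f x`, `x ∈ D` -/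
@[reducible] def Gen (f : I → Ω → ℝ) (D : Set I) : MeasurableSpace Ω := MeasurableSpace.generateFrom (GenS f D)

theorem meas_of_rat {m : MeasurableSpace Ω} (g : Ω → ℝ)
    (h : ∀ q : ℚ, MeasurableSet[m] {ω | g ω < (q : ℝ)}) : Measurable[m] g := by
  refine measurable_of_Iio fun r => ?_
  have h1 : g ⁻¹' Iio r = ⋃ q : {q : ℚ // (q : ℝ) ≤ r}, {ω | g ω < ((q : ℚ) : ℝ)} := by
    ext ω
    simp only [mem_preimage, mem_Iio, mem_iUnion, mem_ofPred_eq]
    constructor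
    · intro hlt
      obtain ⟨q, hq1, hq2⟩ := exists_rat_btwn hlt
      exact ⟨⟨q, hq2.le⟩, hq1⟩
    · rintro ⟨q, hq⟩
      exact hq.trans_le q.2
  rw [h1]
  exact MeasurableSet.iUnion fun q => h q

theorem Gen_le [m0 : MeasurableSpace Ω] (f : I → Ω → ℝ) (hf : ∀ x, Measurable (f x)) (D : Set I) :
    Gen f D ≤ m0 := by
  refine MeasurableSpace.generateFrom_le ?_
  rintro s ⟨x, -, q, rfl⟩
  exact hf x measurableSet_Iio

theorem Gen_mono (f : I → Ω → ℝ) {D D' : Set I} (h : D ⊆ D') : Gen f D ≤ Gen f D' := by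
  refine MeasurableSpace.generateFrom_mono ?_
  rintro s ⟨x, hx, q, rfl⟩
  exact ⟨x, h hx, q, rfl⟩

theorem Gen_meas (f : I → Ω → ℝ) {D : Set I} {x : I} (hx : x ∈ D) : Measurable[Gen f D] (f x) :=
  meas_of_rat _ fun q => MeasurableSpace.measurableSet_generateFrom ⟨x, hx, q, rfl⟩

end Gen

section Dir

variable {Ω A : Type} [LinearOrder A]

theorem dir_set (F : A → Ω → ℝ) (a : A) (ha : ∀ s : Set A, s.Countable → (∀ c ∈ s, c < a) →
    ∃ b, b < a ∧ ∀ c ∈ s, c < b) (s : Set Ω) (hs : MeasurableSet[Gen F (Iio a)] s) :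
    ∃ b, b < a ∧ MeasurableSet[Gen F (Iio b)] s := by
  refine MeasurableSpace.generateFrom_induction (GenS F (Iio a))
    (fun s _ => ∃ b, b < a ∧ MeasurableSet[Gen F (Iio b)] s) ?_ ?_ ?_ ?_ s hs
  · rintro s ⟨x, hx, q, rfl⟩ _
    obtain ⟨b, hb, hxb⟩ := ha {x} (countable_singleton x) (by simpa using hx)
    exact ⟨b, hb, MeasurableSpace.measurableSet_generateFrom ⟨x, hxb x rfl, q, rfl⟩⟩
  · obtain ⟨b, hb, -⟩ := ha ∅ countable_empty (by simp)
    exact ⟨b, hb, @MeasurableSet.empty _ (Gen F (Iio b))⟩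
  · rintro t _ ⟨b, hb, ht⟩
    exact ⟨b, hb, @MeasurableSet.compl _ _ (Gen F (Iio b)) ht⟩
  · rintro t _ ht
    choose b hb hbt using ht
    obtain ⟨c, hc, hbc⟩ := ha (range b) (countable_range b) (by
      rintro _ ⟨n, rfl⟩
      exact hb n)
    refine ⟨c, hc, @MeasurableSet.iUnion _ _ (Gen F (Iio c)) _ _ fun n => ?_⟩
    exact Gen_mono F (Iio_subset_Iio (hbc _ ⟨n, rfl⟩).le) _ (hbt n)

theorem dir_fun (F : A → Ω → ℝ) (a : A) (ha : ∀ s : Set A, s.Countable → (∀ c ∈ s, c < a) →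
    ∃ b, b < a ∧ ∀ c ∈ s, c < b) (g : Ω → ℝ) (hg : Measurable[Gen F (Iio a)] g) :
    ∃ b, b < a ∧ Measurable[Gen F (Iio b)] g := by
  have h1 : ∀ q : ℚ, ∃ b, b < a ∧ MeasurableSet[Gen F (Iio b)] {ω | g ω < (q : ℝ)} :=
    fun q => dir_set F a ha _ (hg measurableSet_Iio)
  choose b hb hbt using h1
  obtain ⟨c, hc, hbc⟩ := ha (range b) (countable_range b) (by
    rintro _ ⟨n, rfl⟩
    exact hb n)
  refine ⟨c, hc, meas_of_rat _ fun q => ?_⟩
  exact Gen_mono F (Iio_subset_Iio (hbc _ ⟨q, rfl⟩).le) _ (hbt q)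

end Dir

section CE

variable {Ω : Type}

/-- bounded functions measurable for a sub-sigma-algebra -/
def BM (m : MeasurableSpace Ω) (w : Ω → ℝ) : Prop :=
  Measurable[m] w ∧ ∃ C, ∀ ω, |w ω| ≤ C

theorem BM.int {m m0 : MeasurableSpace Ω} {ν : Measure Ω} [IsFiniteMeasure ν] (hm : m ≤ m0)
    {w : Ω → ℝ} (hw : BM m w) : Integrable w ν := by
  obtain ⟨C, hC⟩ := hw.2
  exact Integrable.of_bound (hw.1.mono hm le_rfl).aestronglyMeasurable C
    (Eventually.of_forall fun ω => by rw [Real.norm_eq_abs]; exact hC ω)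

theorem BM.mul {m : MeasurableSpace Ω} {w w' : Ω → ℝ} (h : BM m w) (h' : BM m w') :
    BM m (fun ω => w ω * w' ω) := by
  obtain ⟨C, hC⟩ := h.2
  obtain ⟨C', hC'⟩ := h'.2
  refine ⟨h.1.mul h'.1, C * C', fun ω => ?_⟩
  rw [abs_mul]
  exact mul_le_mul (hC ω) (hC' ω) (abs_nonneg _) ((abs_nonneg _).trans (hC ω))

theorem BM.add {m : MeasurableSpace Ω} {w w' : Ω → ℝ} (h : BM m w) (h' : BM m w') :
    BM m (fun ω => w ω + w' ω) := by
  obtain ⟨C, hC⟩ := h.2
  obtain ⟨C', hC'⟩ := h'.2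
  refine ⟨h.1.add h'.1, C + C', fun ω => ?_⟩
  exact (abs_add_le _ _).trans (add_le_add (hC ω) (hC' ω))

theorem BM.const {m : MeasurableSpace Ω} (c : ℝ) : BM m (fun _ : Ω => c) :=
  ⟨measurable_const, |c|, fun _ => le_rfl⟩

theorem BM.mono {m m' : MeasurableSpace Ω} (hm : m ≤ m') {w : Ω → ℝ} (h : BM m w) : BM m' w :=
  ⟨h.1.mono hm le_rfl, h.2⟩

theorem BM.prod {I : Type} {m : MeasurableSpace Ω} (J : Finset I) {w : I → Ω → ℝ}
    (h : ∀ i ∈ J, BM m (w i)) : BM m (fun ω => ∏ i ∈ J, w i ω) := by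
  classical
  induction J using Finset.induction_on with
  | empty => simpa using BM.const 1
  | insert a J ha ih =>
    simp only [Finset.prod_insert ha]
    exact (h a (Finset.mem_insert_self _ _)).mul
      (ih fun i hi => h i (Finset.mem_insert_of_mem hi))

/-- the conditional expectation -/
theorem CE (m : MeasurableSpace Ω) {m0 : MeasurableSpace Ω} (ν : Measure Ω) [IsFiniteMeasure ν]
    (hm : m ≤ m0) (f : Ω → ℝ) (hf : Measurable f)
    (hf1 : ∀ ω, |f ω| ≤ 1) :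
    ∃ g : Ω → ℝ, Measurable[m] g ∧ (∀ ω, |g ω| ≤ 1) ∧
      ∀ w, BM m w → ∫ ω, w ω * f ω ∂ν = ∫ ω, w ω * g ω ∂ν := by
  have hfi : Integrable f ν := Integrable.of_bound hf.aestronglyMeasurable 1
    (Eventually.of_forall fun ω => by rw [Real.norm_eq_abs]; exact hf1 ω)
  have hb : ∀ᵐ ω ∂ν, |(ν[f | m]) ω| ≤ 1 := by
    exact ae_bdd_abs_condExp_of_ae_bdd_abs (Eventually.of_forall hf1)
  refine ⟨fun ω => max (-1) (min 1 ((ν[f | m]) ω)), ?_, fun ω => ?_, fun w hw => ?_⟩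
  · exact measurable_const.max (measurable_const.min stronglyMeasurable_condExp.measurable)
  · rw [abs_le]
    exact ⟨le_max_left _ _, max_le (by norm_num) (min_le_left _ _)⟩
  · have h1 : ν[fun ω => w ω * f ω | m] =ᵐ[ν] fun ω => w ω * (ν[f | m]) ω := by
      obtain ⟨C, hC⟩ := hw.2
      exact condExp_mul_of_stronglyMeasurable_left hw.1.stronglyMeasurable
        (hfi.bdd_mul (hw.1.mono hm le_rfl).aestronglyMeasurable
          (Eventually.of_forall fun ω => by rw [Real.norm_eq_abs]; exact hC ω)) hfi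
    rw [← integral_condExp hm]
    refine integral_congr_ae (h1.trans ?_)
    filter_upwards [hb] with ω hω
    rw [abs_le] at hω
    rw [min_eq_right hω.2, max_eq_right hω.1]

end CE

end Pool.Agent.H253.WS
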